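import Mathlib

/-!
# Matched pairs of Hopf algebras, deformation maps and Doi cocycle deformations
-/

set_option autoImplicit false

namespace Pool.Agent.V1112.Doi

open TensorProduct Coalgebra

section defs

variable (k : Type*) [Field k]

/-- The convolution `f * g : x ↦ f (x₁) g (x₂)` of linear maps from a coalgebra to an algebra. -/
noncomputable def conv {C B : Type*} [AddCommGroup C] [Module k C] [Coalgebra k C] [Ring B]
    [Algebra k B] (f g : C →ₗ[k] B) : C →ₗ[k] B :=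
  LinearMap.mul' k B ∘ₗ TensorProduct.map f g ∘ₗ comul

variable (H : Type*) [Ring H] [HopfAlgebra k H]

/-- `σ` is a normalized Sweedler cocycle on `H` with convolution inverse `σ'`. -/
structure IsSweedlerCocycle (σ σ' : H ⊗[k] H →ₗ[k] k) : Prop where
  /-- `σ * σ' = ε ⊗ ε`. -/
  mul_inv : conv k σ σ' = counit
  /-- `σ' * σ = ε ⊗ ε`. -/
  inv_mul : conv k σ' σ = counit
  /-- `σ (h, 1) = ε (h)`. -/
  apply_one : ∀ h : H, σ (h ⊗ₜ 1) = counit (R := k) h
  /-- `σ (1, h) = ε (h)`. -/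
  one_apply : ∀ h : H, σ (1 ⊗ₜ h) = counit (R := k) h
  /-- `σ (h₁, g₁) σ (h₂ g₂, l) = σ (g₁, l₁) σ (h, g₂ l₂)`, as an identity of convolution products of
  functionals on `H ⊗ (H ⊗ H)`. -/
  cocycle :
    conv k (LinearMap.mul' k k ∘ₗ TensorProduct.map σ counit ∘ₗ
        (TensorProduct.assoc k H H H).symm.toLinearMap)
      (σ ∘ₗ TensorProduct.map (LinearMap.mul' k H) LinearMap.id ∘ₗ
        (TensorProduct.assoc k H H H).symm.toLinearMap) =
    conv k (LinearMap.mul' k k ∘ₗ TensorProduct.map counit σ)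
      (σ ∘ₗ TensorProduct.map LinearMap.id (LinearMap.mul' k H))

/-- The multiplication `h ·_σ g = σ (h₁, g₁) h₂ g₂ σ⁻¹ (h₃, g₃)` of the Doi deformation `H_σ`. -/
noncomputable def doiMul (σ σ' : H ⊗[k] H →ₗ[k] k) : H ⊗[k] H →ₗ[k] H :=
  conv k (conv k (Algebra.linearMap k H ∘ₗ σ) (LinearMap.mul' k H)) (Algebra.linearMap k H ∘ₗ σ')

variable (A : Type*) [Ring A] [HopfAlgebra k A]

variable {k A H}

/-- The map `h ⊗ c ↦ (h₁ ▷ c₁) ⊗ (h₂ ◁ c₂)`. -/
noncomputable def twist (ract : H ⊗[k] A →ₗc[k] H) (lact : H ⊗[k] A →ₗc[k] A) :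
    H ⊗[k] A →ₗ[k] A ⊗[k] H :=
  TensorProduct.map lact.toLinearMap ract.toLinearMap ∘ₗ comul

/-- The multiplication `(a ⊗ h) (c ⊗ g) = a (h₁ ▷ c₁) ⊗ (h₂ ◁ c₂) g` on `A ⊗ H`. -/
noncomputable def bicrossedMul (ract : H ⊗[k] A →ₗc[k] H) (lact : H ⊗[k] A →ₗc[k] A) :
    (A ⊗[k] H) ⊗[k] (A ⊗[k] H) →ₗ[k] A ⊗[k] H :=
  TensorProduct.map (LinearMap.mul' k A) (LinearMap.mul' k H) ∘ₗ
    (TensorProduct.assoc k A A (H ⊗[k] H)).symm.toLinearMap ∘ₗ
    (TensorProduct.assoc k A H H).toLinearMap.lTensor A ∘ₗ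
    ((twist ract lact).rTensor H).lTensor A ∘ₗ
    (TensorProduct.assoc k H A H).symm.toLinearMap.lTensor A ∘ₗ
    (TensorProduct.assoc k A H (A ⊗[k] H)).toLinearMap

/-- `A ⊗ H`, with the bicrossed multiplication, the unit `1 ⊗ 1` and the tensor product coalgebra
structure, is a Hopf algebra. -/
structure IsBicrossedHopf (ract : H ⊗[k] A →ₗc[k] H) (lact : H ⊗[k] A →ₗc[k] A) : Prop where
  /-- Associativity. -/
  mul_assoc : ∀ x y z : A ⊗[k] H,
    bicrossedMul ract lact (bicrossedMul ract lact (x ⊗ₜ y) ⊗ₜ z) =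
      bicrossedMul ract lact (x ⊗ₜ bicrossedMul ract lact (y ⊗ₜ z))
  /-- Left unit. -/
  one_mul : ∀ x : A ⊗[k] H, bicrossedMul ract lact ((1 ⊗ₜ 1) ⊗ₜ x) = x
  /-- Right unit. -/
  mul_one : ∀ x : A ⊗[k] H, bicrossedMul ract lact (x ⊗ₜ (1 ⊗ₜ 1)) = x
  /-- The comultiplication is multiplicative. -/
  comul_mul : comul ∘ₗ bicrossedMul ract lact =
    TensorProduct.map (bicrossedMul ract lact) (bicrossedMul ract lact) ∘ₗ comul
  /-- The counit is multiplicative. -/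
  counit_mul : counit ∘ₗ bicrossedMul ract lact = counit
  /-- There is an antipode. -/
  antipode : ∃ S : A ⊗[k] H →ₗ[k] A ⊗[k] H,
    (∀ x, bicrossedMul ract lact (TensorProduct.map S LinearMap.id (comul (R := k) x)) =
      counit (R := k) x • ((1 : A) ⊗ₜ[k] (1 : H))) ∧
    (∀ x, bicrossedMul ract lact (TensorProduct.map LinearMap.id S (comul (R := k) x)) =
      counit (R := k) x • ((1 : A) ⊗ₜ[k] (1 : H)))

variable (k A H)

/-- A matched pair `(A, H, ◁, ▷)` of Hopf algebras: coalgebra maps `◁ : H ⊗ A → H` and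
`▷ : H ⊗ A → A` with the stated unit conditions such that `A ⊗ H`, with the bicrossed
multiplication, the unit `1 ⊗ 1` and the tensor product coalgebra structure, is a Hopf algebra. -/
structure MatchedPair where
  /-- The map `◁`. -/
  ract : H ⊗[k] A →ₗc[k] H
  /-- The map `▷`. -/
  lact : H ⊗[k] A →ₗc[k] A
  /-- `h ▷ 1 = ε (h) 1`. -/
  lact_one : ∀ h : H, lact (h ⊗ₜ 1) = counit (R := k) h • (1 : A)
  /-- `1 ▷ a = a`. -/
  one_lact : ∀ a : A, lact (1 ⊗ₜ a) = a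
  /-- `1 ◁ a = ε (a) 1`. -/
  one_ract : ∀ a : A, ract (1 ⊗ₜ a) = counit (R := k) a • (1 : H)
  /-- `h ◁ 1 = h`. -/
  ract_one : ∀ h : H, ract (h ⊗ₜ 1) = h
  /-- `A ⊗ H` with the bicrossed multiplication is a Hopf algebra. -/
  hopf : IsBicrossedHopf ract lact

variable {k A H}

/-- The multiplication `h • g = (h ◁ r (g₁)) g₂` of the `r`-deformation `H_r`. -/
noncomputable def deformMul (M : MatchedPair k H A) (r : H →ₗc[k] A) : H ⊗[k] H →ₗ[k] H :=
  LinearMap.mul' k H ∘ₗ M.ract.toLinearMap.rTensor H ∘ₗ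
    (TensorProduct.assoc k H A H).symm.toLinearMap ∘ₗ
    (TensorProduct.map r.toLinearMap LinearMap.id ∘ₗ comul).lTensor H

/-- `r : H → A` is a deformation map of the matched pair `M`. -/
structure IsDeformationMap (M : MatchedPair k H A) (r : H →ₗc[k] A) : Prop where
  /-- `r` is unitary. -/
  map_one : r 1 = 1
  /-- `r` is cocentral: `r (h₁) ⊗ h₂ = r (h₂) ⊗ h₁`. -/
  cocentral : ∀ h : H, TensorProduct.map r.toLinearMap LinearMap.id (comul (R := k) h) =
    TensorProduct.map r.toLinearMap LinearMap.id (TensorProduct.comm k H H (comul (R := k) h))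
  /-- `r ((h ◁ r (g₁)) g₂) = r (h₁) (h₂ ▷ r (g))`. -/
  compat : ∀ h g : H, r (deformMul M r (h ⊗ₜ g)) =
    LinearMap.mul' k A (TensorProduct.map r.toLinearMap
      (M.lact.toLinearMap ∘ₗ (TensorProduct.mk k H A).flip (r g)) (comul (R := k) h))

end defs

end Pool.Agent.V1112.Doi
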