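import Mathlib

/-!
# Hopf algebras from generators

The antipode axioms need to be checked only on algebra generators.
-/

set_option autoImplicit false

namespace Pool.Agent.V1112.HopfGen

open TensorProduct Coalgebra

variable {R A : Type*} [CommRing R] [Ring A] [Bialgebra R A]

/-- Left antipode identity at `a`. -/
def LeftAt (S : A →ₗ[R] A) (a : A) : Prop :=
  LinearMap.mul' R A (S.rTensor A (comul (R := R) a)) = algebraMap R A (counit a)

/-- Right antipode identity at `a`. -/
def RightAt (S : A →ₗ[R] A) (a : A) : Prop :=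
  LinearMap.mul' R A (S.lTensor A (comul (R := R) a)) = algebraMap R A (counit a)

theorem left_mul_aux (S : A →ₗ[R] A) (hS : ∀ a b, S (a * b) = S b * S a) (u : A ⊗[R] A) (b b' : A) :
    LinearMap.mul' R A (S.rTensor A (u * b ⊗ₜ b')) =
      S b * LinearMap.mul' R A (S.rTensor A u) * b' := by
  induction u using TensorProduct.induction_on with
  | zero => simp
  | tmul x y => simp [hS, mul_assoc]
  | add x y hx hy => simp only [add_mul, map_add, hx, hy, mul_add]

theorem right_mul_aux (S : A →ₗ[R] A) (hS : ∀ a b, S (a * b) = S b * S a) (u : A ⊗[R] A) (b b' : A) :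
    LinearMap.mul' R A (S.lTensor A (b ⊗ₜ b' * u)) =
      b * LinearMap.mul' R A (S.lTensor A u) * S b' := by
  induction u using TensorProduct.induction_on with
  | zero => simp
  | tmul x y => simp [hS, mul_assoc]
  | add x y hx hy => simp only [add_mul, map_add, hx, hy, mul_add]

theorem LeftAt.mul {S : A →ₗ[R] A} (hS : ∀ a b, S (a * b) = S b * S a) {a b : A}
    (ha : LeftAt S a) (hb : LeftAt S b) : LeftAt S (a * b) := by
  unfold LeftAt at *
  have key : ∀ v : A ⊗[R] A, LinearMap.mul' R A (S.rTensor A (comul (R := R) a * v)) =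
      algebraMap R A (counit (R := R) a) * LinearMap.mul' R A (S.rTensor A v) := by
    intro v
    induction v using TensorProduct.induction_on with
    | zero => simp
    | tmul x y =>
      rw [left_mul_aux S hS, ha, LinearMap.rTensor_tmul, LinearMap.mul'_apply, ← mul_assoc,
        Algebra.commutes (counit (R := R) a) (S x)]
    | add x y hx hy => simp only [mul_add, map_add, hx, hy]
  rw [Bialgebra.comul_mul, key, hb, Bialgebra.counit_mul, map_mul]

theorem RightAt.mul {S : A →ₗ[R] A} (hS : ∀ a b, S (a * b) = S b * S a) {a b : A}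
    (ha : RightAt S a) (hb : RightAt S b) : RightAt S (a * b) := by
  unfold RightAt at *
  have key : ∀ v : A ⊗[R] A, LinearMap.mul' R A (S.lTensor A (v * comul (R := R) b)) =
      LinearMap.mul' R A (S.lTensor A v) * algebraMap R A (counit (R := R) b) := by
    intro v
    induction v using TensorProduct.induction_on with
    | zero => simp
    | tmul x y =>
      rw [right_mul_aux S hS, hb, LinearMap.lTensor_tmul, LinearMap.mul'_apply, mul_assoc,
        Algebra.commutes (counit (R := R) b) (S y), ← mul_assoc]
    | add x y hx hy => simp only [add_mul, map_add, hx, hy]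
  rw [Bialgebra.comul_mul, key, ha, Bialgebra.counit_mul, map_mul]

theorem leftAt_algebraMap {S : A →ₗ[R] A} (h1 : S 1 = 1) (r : R) : LeftAt S (algebraMap R A r) := by
  unfold LeftAt
  rw [Algebra.algebraMap_eq_smul_one, map_smul, Bialgebra.comul_one,
    Algebra.TensorProduct.one_def, map_smul, LinearMap.rTensor_tmul, map_smul,
    LinearMap.mul'_apply, h1, mul_one, map_smul, Bialgebra.counit_one, smul_eq_mul, mul_one,
    Algebra.algebraMap_eq_smul_one]

theorem rightAt_algebraMap {S : A →ₗ[R] A} (h1 : S 1 = 1) (r : R) :
    RightAt S (algebraMap R A r) := by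
  unfold RightAt
  rw [Algebra.algebraMap_eq_smul_one, map_smul, Bialgebra.comul_one,
    Algebra.TensorProduct.one_def, map_smul, LinearMap.lTensor_tmul, map_smul,
    LinearMap.mul'_apply, h1, mul_one, map_smul, Bialgebra.counit_one, smul_eq_mul, mul_one,
    Algebra.algebraMap_eq_smul_one]

theorem LeftAt.add {S : A →ₗ[R] A} {a b : A} (ha : LeftAt S a) (hb : LeftAt S b) :
    LeftAt S (a + b) := by
  unfold LeftAt at *
  simp only [map_add, ha, hb]

theorem RightAt.add {S : A →ₗ[R] A} {a b : A} (ha : RightAt S a) (hb : RightAt S b) :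
    RightAt S (a + b) := by
  unfold RightAt at *
  simp only [map_add, ha, hb]

/-- A bialgebra with an anti-multiplicative linear map that satisfies the antipode identities on
algebra generators is a Hopf algebra. -/
noncomputable abbrev ofGenerators (s : Set A) (hs : Algebra.adjoin R s = ⊤) (S : A →ₗ[R] A)
    (hS : ∀ a b, S (a * b) = S b * S a) (h1 : S 1 = 1) (hl : ∀ a ∈ s, LeftAt S a)
    (hr : ∀ a ∈ s, RightAt S a) : HopfAlgebra R A where
  antipode := S
  mul_antipode_rTensor_comul := by
    ext a
    have ha : a ∈ Algebra.adjoin R s := hs ▸ Algebra.mem_top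
    exact Algebra.adjoin_induction (p := fun a _ => LeftAt S a) hl (leftAt_algebraMap h1)
      (fun _ _ _ _ => LeftAt.add) (fun _ _ _ _ => LeftAt.mul hS) ha
  mul_antipode_lTensor_comul := by
    ext a
    have ha : a ∈ Algebra.adjoin R s := hs ▸ Algebra.mem_top
    exact Algebra.adjoin_induction (p := fun a _ => RightAt S a) hr (rightAt_algebraMap h1)
      (fun _ _ _ _ => RightAt.add) (fun _ _ _ _ => RightAt.mul hS) ha

end Pool.Agent.V1112.HopfGen
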