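import Mathlib

/-!
# Quantum permutation groups and the projective free hyperoctahedral quantum group

The underlying unital complex algebras of the Hopf `*`-algebras `O(S_N^+)`, `O(G^+(X))`,
`O(H_n^+)` and `O(PH_n^+)`, given by generators and relations.
-/

set_option autoImplicit false

namespace Pool.Agent.V1112.QPerm

open FreeAlgebra

/-- The defining relations of `O(H_n^+)`: `u u^t = 1 = u^t u`, and distinct entries in one row or in
one column have product zero. -/
inductive HRel (n : ℕ) :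
    FreeAlgebra ℂ (Fin n × Fin n) → FreeAlgebra ℂ (Fin n × Fin n) → Prop
  | orth_row (i j : Fin n) : HRel n (∑ k, ι ℂ (i, k) * ι ℂ (j, k)) (if i = j then 1 else 0)
  | orth_col (i j : Fin n) : HRel n (∑ k, ι ℂ (k, i) * ι ℂ (k, j)) (if i = j then 1 else 0)
  | cubic_row (i j k : Fin n) : j ≠ k → HRel n (ι ℂ (i, j) * ι ℂ (i, k)) 0
  | cubic_col (i j k : Fin n) : j ≠ k → HRel n (ι ℂ (j, i) * ι ℂ (k, i)) 0

/-- The algebra `O(H_n^+)` of the free hyperoctahedral quantum group. -/
abbrev OH (n : ℕ) : Type := RingQuot (HRel n)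

/-- The generator `u_ij` of `O(H_n^+)`. -/
noncomputable def u {n : ℕ} (i j : Fin n) : OH n := RingQuot.mkAlgHom ℂ (HRel n) (ι ℂ (i, j))

/-- The subalgebra `O(PH_n^+)` of `O(H_n^+)` generated by all products `u_ij u_kl`. -/
noncomputable def OPH (n : ℕ) : Subalgebra ℂ (OH n) :=
  Algebra.adjoin ℂ {x | ∃ i j k l : Fin n, x = u i j * u k l}

/-- The defining relations of `O(S_N^+)`: the generators are idempotent, each row and each column
sums to one. -/
inductive SRel (N : ℕ) :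
    FreeAlgebra ℂ (Fin N × Fin N) → FreeAlgebra ℂ (Fin N × Fin N) → Prop
  | idem (i j : Fin N) : SRel N (ι ℂ (i, j) * ι ℂ (i, j)) (ι ℂ (i, j))
  | row (i : Fin N) : SRel N (∑ j, ι ℂ (i, j)) 1
  | col (j : Fin N) : SRel N (∑ i, ι ℂ (i, j)) 1

/-- The algebra `O(S_N^+)` of the quantum symmetric group. -/
abbrev OS (N : ℕ) : Type := RingQuot (SRel N)

open Classical in
/-- The defining relations of `O(G^+(X))`: those of `O(S_N^+)` and `u A = A u`, where `A` is the
adjacency matrix of `X`. -/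
inductive GRel {N : ℕ} (X : SimpleGraph (Fin N)) :
    FreeAlgebra ℂ (Fin N × Fin N) → FreeAlgebra ℂ (Fin N × Fin N) → Prop
  | magic (a b : FreeAlgebra ℂ (Fin N × Fin N)) : SRel N a b → GRel X a b
  | comm (i j : Fin N) : GRel X (∑ k, if X.Adj k j then ι ℂ (i, k) else 0)
      (∑ k, if X.Adj i k then ι ℂ (k, j) else 0)

/-- The algebra `O(G^+(X))` of the quantum automorphism group of the graph `X`. -/
abbrev OG {N : ℕ} (X : SimpleGraph (Fin N)) : Type := RingQuot (GRel X)

/-! ### The representation of `O(H_n^+)` -/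

/-- The antidiagonal involution `g_i`. -/
noncomputable def gm (b : Bool) : Matrix (Fin 2) (Fin 2) (RatFunc ℂ) :=
  if b then !![0, RatFunc.X; RatFunc.X⁻¹, 0] else !![0, 1; 1, 0]

theorem gm_sq (b : Bool) : gm b * gm b = 1 := by
  cases b
  · simp [gm, Matrix.one_fin_two]
  · simp [gm, Matrix.one_fin_two, RatFunc.X_ne_zero]

/-- The image of `u_ij`. -/
noncomputable def w {n : ℕ} (p : Fin n × Fin n) : Matrix (Fin 2) (Fin 2) (RatFunc ℂ) :=
  if p.1 = p.2 then gm (decide ((p.1 : ℕ) = 0)) else 0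

theorem w_rel {n : ℕ} ⦃x y : FreeAlgebra ℂ (Fin n × Fin n)⦄ (h : HRel n x y) :
    FreeAlgebra.lift ℂ (w (n := n)) x = FreeAlgebra.lift ℂ (w (n := n)) y := by
  cases h with
  | orth_row i j =>
    simp only [map_sum, map_mul, FreeAlgebra.lift_ι_apply]
    by_cases hij : i = j
    · subst hij
      rw [Finset.sum_eq_single i]
      · simp [w, gm_sq]
      · intro b _ hb
        simp [w, Ne.symm hb]
      · simp
    · rw [if_neg hij, map_zero]
      refine Finset.sum_eq_zero fun k _ => ?_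
      by_cases h1 : i = k
      · subst h1
        simp [w, Ne.symm hij]
      · simp [w, h1]
  | orth_col i j =>
    simp only [map_sum, map_mul, FreeAlgebra.lift_ι_apply]
    by_cases hij : i = j
    · subst hij
      rw [Finset.sum_eq_single i]
      · simp [w, gm_sq]
      · intro b _ hb
        simp [w, hb]
      · simp
    · rw [if_neg hij, map_zero]
      refine Finset.sum_eq_zero fun k _ => ?_
      by_cases h1 : k = i
      · subst h1
        simp [w, hij]
      · simp [w, h1]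
  | cubic_row i j k hjk =>
    simp only [map_mul, FreeAlgebra.lift_ι_apply, map_zero]
    by_cases h1 : i = j
    · subst h1
      simp [w, hjk]
    · simp [w, h1]
  | cubic_col i j k hjk =>
    simp only [map_mul, FreeAlgebra.lift_ι_apply, map_zero]
    by_cases h1 : j = i
    · subst h1
      simp [w, Ne.symm hjk]
    · simp [w, h1]

/-- The representation `O(H_n^+) → M_2(ℂ(X))`. -/
noncomputable def ρ (n : ℕ) : OH n →ₐ[ℂ] Matrix (Fin 2) (Fin 2) (RatFunc ℂ) :=
  RingQuot.liftAlgHom ℂ ⟨FreeAlgebra.lift ℂ (w (n := n)), w_rel⟩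

theorem ρ_u {n : ℕ} (i j : Fin n) : ρ n (u i j) = w (i, j) := by
  simp [ρ, u]

/-- Diagonal two by two matrices. -/
def Diag (M : Matrix (Fin 2) (Fin 2) (RatFunc ℂ)) : Prop := M 0 1 = 0 ∧ M 1 0 = 0

theorem Diag.mul {M M' : Matrix (Fin 2) (Fin 2) (RatFunc ℂ)} (h : Diag M) (h' : Diag M') :
    Diag (M * M') := by
  simp [Diag, Matrix.mul_apply, Fin.sum_univ_two, h.1, h.2, h'.1, h'.2]

theorem Diag.mul00 {M M' : Matrix (Fin 2) (Fin 2) (RatFunc ℂ)} (h : Diag M) :
    (M * M') 0 0 = M 0 0 * M' 0 0 := by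
  simp [Matrix.mul_apply, Fin.sum_univ_two, h.1]

theorem diag_of_mem {n : ℕ} {x : OH n} (hx : x ∈ OPH n) : Diag (ρ n x) := by
  refine Algebra.adjoin_induction (p := fun x _ => Diag (ρ n x)) ?_ ?_ ?_ ?_ hx
  · rintro _ ⟨i, j, k, l, rfl⟩
    rw [map_mul, ρ_u, ρ_u]
    simp only [w, gm]
    split_ifs <;> simp [Diag]
  · intro r
    rw [AlgHom.commutes]
    simp [Diag, Matrix.algebraMap_matrix_apply]
  · intro x y _ _ h h'
    rw [map_add]
    exact ⟨by simp [h.1, h'.1], by simp [h.2, h'.2]⟩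
  · intro x y _ _ h h'
    rw [map_mul]
    exact h.mul h'

/-- For `n ≥ 2` the algebra `O(PH_n^+)` is not generated by idempotents. -/
theorem adjoin_idem_ne_top {n : ℕ} (hn : 2 ≤ n) (s : Set (OPH n)) (hs : ∀ x ∈ s, x * x = x) :
    Algebra.adjoin ℂ s ≠ ⊤ := by
  intro htop
  have key : ∀ x : OPH n, ∃ r : ℂ, ρ n (x : OH n) 0 0 = algebraMap ℂ (RatFunc ℂ) r := by
    intro x
    have hx : x ∈ Algebra.adjoin ℂ s := htop ▸ Algebra.mem_top
    refine Algebra.adjoin_induction
      (p := fun (x : OPH n) _ => ∃ r : ℂ, ρ n (x : OH n) 0 0 = algebraMap ℂ (RatFunc ℂ) r)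
      ?_ ?_ ?_ ?_ hx
    · intro x hx
      have h1 := hs x hx
      have h2 : ρ n (x : OH n) * ρ n (x : OH n) = ρ n (x : OH n) := by
        rw [← map_mul]
        congr 1
        exact congrArg Subtype.val h1
      have h3 := congrFun (congrFun h2 0) 0
      rw [(diag_of_mem x.2).mul00] at h3
      have h4 : ρ n (x : OH n) 0 0 * (ρ n (x : OH n) 0 0 - 1) = 0 := by
        rw [mul_sub, h3]; simp
      rcases mul_eq_zero.1 h4 with h5 | h5
      · exact ⟨0, by rw [h5, map_zero]⟩
      · exact ⟨1, by rw [sub_eq_zero.1 h5, map_one]⟩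
    · intro r
      refine ⟨r, ?_⟩
      rw [Subalgebra.coe_algebraMap, AlgHom.commutes]
      simp [Matrix.algebraMap_matrix_apply]
    · rintro x y _ _ ⟨r, hr⟩ ⟨r', hr'⟩
      refine ⟨r + r', ?_⟩
      rw [Subalgebra.coe_add, map_add, Matrix.add_apply, hr, hr', map_add]
    · rintro x y _ _ ⟨r, hr⟩ ⟨r', hr'⟩
      refine ⟨r * r', ?_⟩
      rw [Subalgebra.coe_mul, map_mul, (diag_of_mem x.2).mul00, hr, hr', map_mul]
  let i0 : Fin n := ⟨0, by omega⟩
  let i1 : Fin n := ⟨1, by omega⟩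
  have hmem : u i0 i0 * u i1 i1 ∈ OPH n := Algebra.subset_adjoin ⟨i0, i0, i1, i1, rfl⟩
  obtain ⟨r, hr⟩ := key ⟨u i0 i0 * u i1 i1, hmem⟩
  rw [map_mul, ρ_u, ρ_u] at hr
  have hX : (RatFunc.X : RatFunc ℂ) = algebraMap ℂ (RatFunc ℂ) r := by
    rw [← hr]
    simp [w, gm, i0, i1]
  have h6 : (algebraMap (Polynomial ℂ) (RatFunc ℂ)) Polynomial.X =
      (algebraMap (Polynomial ℂ) (RatFunc ℂ)) (Polynomial.C r) := by
    rw [RatFunc.algebraMap_X, hX]
    rfl
  have h7 := RatFunc.algebraMap_injective ℂ h6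
  have h8 := congrArg (fun p => Polynomial.coeff p 1) h7
  simp [Polynomial.coeff_X_one] at h8

end Pool.Agent.V1112.QPerm
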